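import Pool.Agent.W198.TC.Basic
import Pool.Agent.W198.TC.Stms

/-!
# Project TC, part TC-KCUM: cumulative behaviour of the smoothed density
-/

set_option autoImplicit false

open Filter Topology Set MeasureTheory

namespace Pool.Agent.W991.TCK

open TC

/-! ### termwise bounds -/

theorem exp_le_inv_sq (y : ℝ) (n : ℕ) (hn : 1 ≤ n) :
    Real.exp (-(y - Real.log n) ^ 2 / 2) ≤ Real.exp (2 + 2 * y) * (1 / (n : ℝ) ^ 2) := by
  have hn0 : (0 : ℝ) < n := by exact_mod_cast hn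
  have h1 : (1 : ℝ) / (n : ℝ) ^ 2 = Real.exp (-(2 * Real.log n)) := by
    rw [Real.exp_neg, two_mul, Real.exp_add, Real.exp_log hn0, one_div, pow_two]
  rw [h1, ← Real.exp_add]
  apply Real.exp_le_exp.mpr
  nlinarith [sq_nonneg (y - Real.log n + 2)]

theorem lam_sq_le (n : ℕ) : (lam n) ^ 2 ≤ 4 := by
  have h1 := lam_le_two n
  have h2 := lam_nonneg n
  nlinarith

theorem eterm_le (y : ℝ) (n : ℕ) : (lam n) ^ 2 * Real.exp (-(y - Real.log n) ^ 2 / 2) ≤
    4 * Real.exp (2 + 2 * y) * (1 / (n : ℝ) ^ 2) := by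
  rcases Nat.eq_zero_or_pos n with rfl | hn
  · simp [lam_zero]
  · have h1 := exp_le_inv_sq y n hn
    have h2 := lam_sq_le n
    calc (lam n) ^ 2 * Real.exp (-(y - Real.log n) ^ 2 / 2)
        ≤ 4 * (Real.exp (2 + 2 * y) * (1 / (n : ℝ) ^ 2)) := by gcongr
      _ = _ := by ring

theorem term_le (y : ℝ) (n : ℕ) : (lam n) ^ 2 * gs (y - Real.log n) ≤
    4 * Real.exp (2 + 2 * y) * (1 / (n : ℝ) ^ 2) := by
  refine le_trans ?_ (eterm_le y n)
  exact mul_le_mul_of_nonneg_left (gs_le_exp _) (sq_nonneg _)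

theorem sum_inv_sq : Summable (fun n : ℕ => 1 / (n : ℝ) ^ 2) :=
  Real.summable_one_div_nat_pow.mpr one_lt_two

theorem summ (y : ℝ) : Summable (fun n : ℕ => (lam n) ^ 2 * gs (y - Real.log n)) :=
  Summable.of_nonneg_of_le (fun n => mul_nonneg (sq_nonneg _) (gs_nonneg _)) (term_le y)
    (sum_inv_sq.mul_left _)

theorem esumm (y : ℝ) : Summable (fun n : ℕ => (lam n) ^ 2 *
    Real.exp (-(y - Real.log n) ^ 2 / 2)) :=
  Summable.of_nonneg_of_le (fun n => by positivity) (eterm_le y) (sum_inv_sq.mul_left _)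

theorem KK_contOn (B : ℝ) : ContinuousOn KK (Set.Iic B) := by
  unfold KK
  refine continuousOn_tsum (u := fun n : ℕ => 4 * Real.exp (2 + 2 * B) * (1 / (n : ℝ) ^ 2))
    (fun n => ?_) (sum_inv_sq.mul_left _) (fun n u hu => ?_)
  · exact (continuous_const.mul (gs_cont.comp (continuous_id.sub continuous_const))).continuousOn
  · rw [Real.norm_of_nonneg (mul_nonneg (sq_nonneg _) (gs_nonneg _))]
    refine (term_le u n).trans ?_
    have hu' : u ≤ B := hu
    gcongr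

theorem KK_cont : Continuous KK := by
  rw [continuous_iff_continuousAt]
  intro y
  exact (KK_contOn (y + 1)).continuousAt (Iic_mem_nhds (by linarith))

/-! ### the mass -/

/-- mass of `log n ≤ x` -/
noncomputable def VM (x : ℝ) : ℝ := ∑ n ∈ Finset.Icc 1 ⌊Real.exp x⌋₊, (lam n) ^ 2

theorem mem_iff (x : ℝ) (n : ℕ) :
    n ∈ Finset.Icc 1 ⌊Real.exp x⌋₊ ↔ 1 ≤ n ∧ Real.log n ≤ x := by
  rw [Finset.mem_Icc]
  refine and_congr_right fun hn => ?_
  have hn0 : (0 : ℝ) < n := by exact_mod_cast hn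
  rw [Nat.le_floor_iff (Real.exp_pos x).le, Real.log_le_iff_le_exp hn0]

theorem VM_bound (C1 : ℝ) (hC : 0 < C1)
    (h : ∀ N : ℕ, 1 ≤ N →
      |(∑ n ∈ Finset.Icc 1 N, (lam n) ^ 2) - (Real.log N) ^ 2 / 2| ≤ C1 * (Real.log N + 1))
    (x : ℝ) (hx : 0 ≤ x) : |VM x - x ^ 2 / 2| ≤ (C1 + 1) * (x + 1) := by
  have h1 : 1 ≤ ⌊Real.exp x⌋₊ := by
    rw [Nat.one_le_floor_iff]
    exact Real.one_le_exp hx
  set N := ⌊Real.exp x⌋₊ with hN
  have hN0 : (0 : ℝ) < N := by exact_mod_cast h1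
  have h2 : (N : ℝ) ≤ Real.exp x := Nat.floor_le (Real.exp_pos x).le
  have h3 : Real.exp x < N + 1 := Nat.lt_floor_add_one _
  have h4 : Real.log N ≤ x := by
    rw [Real.log_le_iff_le_exp hN0]
    exact h2
  have h5 : x - 1 ≤ Real.log N := by
    rw [Real.le_log_iff_exp_le hN0, Real.exp_sub]
    have h6 : (2 : ℝ) ≤ Real.exp 1 := by
      have := Real.add_one_le_exp (1 : ℝ)
      linarith
    have h7 : (1 : ℝ) ≤ N := by exact_mod_cast h1
    rw [div_le_iff₀ (Real.exp_pos 1)]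
    nlinarith
  have h6 : 0 ≤ Real.log N := Real.log_nonneg (by exact_mod_cast h1)
  have h8 := h N h1
  have h9 : VM x = ∑ n ∈ Finset.Icc 1 N, (lam n) ^ 2 := rfl
  rw [h9]
  rw [abs_le] at h8 ⊢
  constructor <;> nlinarith [h8.1, h8.2]

theorem VM_sub (Y s : ℝ) (N : ℕ) :
    ∑ n ∈ (Finset.Icc 1 N).filter (fun n : ℕ => |Y - Real.log n| ≤ s), (lam n) ^ 2 ≤
      VM (Y + s) := by
  apply Finset.sum_le_sum_of_subset_of_nonneg
  · intro n hn
    rw [Finset.mem_filter, Finset.mem_Icc] at hn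
    rw [mem_iff]
    refine ⟨hn.1.1, ?_⟩
    have := (abs_le.mp hn.2).1
    linarith
  · intro n _ _
    positivity

theorem VM_sub2 (Y s : ℝ) (hs : 0 ≤ s) (N : ℕ) :
    ∑ n ∈ (Finset.Icc 1 N).filter (fun n : ℕ => |Y - Real.log n| ≤ s), (lam n) ^ 2 ≤
      VM (Y + s) - VM (Y - s - 1) := by
  have h1 : Finset.Icc 1 ⌊Real.exp (Y - s - 1)⌋₊ ⊆ Finset.Icc 1 ⌊Real.exp (Y + s)⌋₊ := by
    intro n hn
    rw [mem_iff] at hn ⊢
    exact ⟨hn.1, by linarith [hn.2]⟩
  have h2 := Finset.sum_sdiff (f := fun n => (lam n) ^ 2) h1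
  have h3 : ∑ n ∈ (Finset.Icc 1 N).filter (fun n : ℕ => |Y - Real.log n| ≤ s), (lam n) ^ 2 ≤
      ∑ n ∈ Finset.Icc 1 ⌊Real.exp (Y + s)⌋₊ \ Finset.Icc 1 ⌊Real.exp (Y - s - 1)⌋₊,
        (lam n) ^ 2 := by
    apply Finset.sum_le_sum_of_subset_of_nonneg
    · intro n hn
      rw [Finset.mem_filter, Finset.mem_Icc] at hn
      rw [Finset.mem_sdiff, mem_iff, mem_iff]
      have h4 := abs_le.mp hn.2
      refine ⟨⟨hn.1.1, by linarith [h4.1]⟩, ?_⟩
      intro h5
      linarith [h5.2, h4.2]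
    · intro n _ _
      positivity
  unfold VM
  linarith

theorem mass (C1 : ℝ) (hC : 0 < C1)
    (h : ∀ N : ℕ, 1 ≤ N →
      |(∑ n ∈ Finset.Icc 1 N, (lam n) ^ 2) - (Real.log N) ^ 2 / 2| ≤ C1 * (Real.log N + 1))
    (Y s : ℝ) (hY : 0 ≤ Y) (hs : 0 ≤ s) (N : ℕ) :
    ∑ n ∈ (Finset.Icc 1 N).filter (fun n : ℕ => |Y - Real.log n| ≤ s), (lam n) ^ 2 ≤
      (4 + 2 * C1) * (Y + 1) * (s + 1) ^ 2 := by
  have hVp := abs_le.mp (VM_bound C1 hC h (Y + s) (by linarith))
  rcases lt_or_ge Y (s + 1) with hlt | hge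
  · refine (VM_sub Y s N).trans ?_
    have h1 : VM (Y + s) ≤ (Y + s) ^ 2 / 2 + (C1 + 1) * (Y + s + 1) := by linarith [hVp.2]
    have h2 : (Y + s) ^ 2 / 2 ≤ 2 * (s + 1) ^ 2 := by nlinarith
    have h3 : (C1 + 1) * (Y + s + 1) ≤ 2 * (C1 + 1) * (s + 1) := by nlinarith
    have h4 : 2 * (C1 + 1) * (s + 1) ≤ 2 * (C1 + 1) * (s + 1) ^ 2 := by
      have : s + 1 ≤ (s + 1) ^ 2 := by nlinarith
      have h5 : 0 ≤ 2 * (C1 + 1) := by linarith
      exact mul_le_mul_of_nonneg_left this h5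
    have h6 : (4 + 2 * C1) * (s + 1) ^ 2 ≤ (4 + 2 * C1) * (Y + 1) * (s + 1) ^ 2 := by
      have h7 : 0 ≤ (4 + 2 * C1) * (s + 1) ^ 2 := by positivity
      nlinarith
    nlinarith
  · refine (VM_sub2 Y s hs N).trans ?_
    have hVm := abs_le.mp (VM_bound C1 hC h (Y - s - 1) (by linarith))
    have h1 : VM (Y + s) - VM (Y - s - 1) ≤ (Y + s) ^ 2 / 2 - (Y - s - 1) ^ 2 / 2 +
        (C1 + 1) * (Y + s + 1) + (C1 + 1) * (Y - s - 1 + 1) := by linarith [hVp.2, hVm.1]
    have h2 : (Y + s) ^ 2 / 2 - (Y - s - 1) ^ 2 / 2 ≤ (2 * s + 1) * (Y + 1) := by nlinarith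
    have h3 : (C1 + 1) * (Y + s + 1) + (C1 + 1) * (Y - s - 1 + 1) ≤ 2 * (C1 + 1) * (Y + 1) := by
      nlinarith
    have h4 : (2 * s + 1) * (Y + 1) ≤ 2 * (Y + 1) * (s + 1) ^ 2 := by
      have h5 : 2 * s + 1 ≤ 2 * (s + 1) ^ 2 := by nlinarith
      have h6 : 0 ≤ Y + 1 := by linarith
      nlinarith
    have h5 : 2 * (C1 + 1) * (Y + 1) ≤ 2 * (C1 + 1) * (Y + 1) * (s + 1) ^ 2 := by
      have h6 : 1 ≤ (s + 1) ^ 2 := by nlinarith
      have h7 : 0 ≤ 2 * (C1 + 1) * (Y + 1) := by positivity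
      nlinarith
    nlinarith

/-! ### the Gaussian average of the mass -/

theorem ksum : Summable (fun k : ℕ => Real.exp (-(k : ℝ) ^ 2 / 2) * ((k : ℝ) + 2) ^ 2) := by
  have h0 := Real.summable_pow_mul_exp_neg_nat_mul 0 (r := 1) one_pos
  have h2 := Real.summable_pow_mul_exp_neg_nat_mul 2 (r := 1) one_pos
  refine Summable.of_nonneg_of_le (fun k => by positivity) (fun k => ?_)
    (((h0.mul_left 8).add (h2.mul_left 2)).mul_left (Real.exp (1 / 2)))
  have h3 : Real.exp (-(k : ℝ) ^ 2 / 2) ≤ Real.exp (1 / 2) * Real.exp (-1 * (k : ℝ)) := by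
    rw [← Real.exp_add]
    apply Real.exp_le_exp.mpr
    nlinarith [sq_nonneg ((k : ℝ) - 1)]
  have h4 : ((k : ℝ) + 2) ^ 2 ≤ 8 + 2 * (k : ℝ) ^ 2 := by nlinarith [sq_nonneg ((k : ℝ) - 2)]
  calc Real.exp (-(k : ℝ) ^ 2 / 2) * ((k : ℝ) + 2) ^ 2
      ≤ (Real.exp (1 / 2) * Real.exp (-1 * (k : ℝ))) * (8 + 2 * (k : ℝ) ^ 2) := by gcongr
    _ = _ := by ring

theorem gmass (C1 : ℝ) (hC : 0 < C1)
    (h : ∀ N : ℕ, 1 ≤ N →
      |(∑ n ∈ Finset.Icc 1 N, (lam n) ^ 2) - (Real.log N) ^ 2 / 2| ≤ C1 * (Real.log N + 1))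
    (Y : ℝ) (hY : 0 ≤ Y) (N : ℕ) :
    ∑ n ∈ Finset.Icc 1 N, (lam n) ^ 2 * Real.exp (-(Y - Real.log n) ^ 2 / 2) ≤
      (4 + 2 * C1) * (∑' k : ℕ, Real.exp (-(k : ℝ) ^ 2 / 2) * ((k : ℝ) + 2) ^ 2) * (Y + 1) := by
  classical
  have hmaps : ∀ n ∈ Finset.Icc 1 N,
      ⌊|Y - Real.log n|⌋₊ ∈ Finset.range (⌊Y + Real.log N⌋₊ + 1) := by
    intro n hn
    rw [Finset.mem_Icc] at hn
    rw [Finset.mem_range, Nat.lt_succ_iff]
    apply Nat.floor_le_floor
    have hn0 : (0 : ℝ) < n := by exact_mod_cast hn.1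
    have h1 : 0 ≤ Real.log n := Real.log_nonneg (by exact_mod_cast hn.1)
    have h2 : Real.log n ≤ Real.log N := Real.log_le_log hn0 (by exact_mod_cast hn.2)
    rw [abs_le]
    constructor <;> linarith
  rw [← Finset.sum_fiberwise_of_maps_to hmaps]
  calc ∑ k ∈ Finset.range (⌊Y + Real.log N⌋₊ + 1),
        ∑ n ∈ (Finset.Icc 1 N).filter (fun n : ℕ => ⌊|Y - Real.log n|⌋₊ = k),
          (lam n) ^ 2 * Real.exp (-(Y - Real.log n) ^ 2 / 2)
      ≤ ∑ k ∈ Finset.range (⌊Y + Real.log N⌋₊ + 1),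
          (4 + 2 * C1) * (Y + 1) * (Real.exp (-(k : ℝ) ^ 2 / 2) * ((k : ℝ) + 2) ^ 2) := by
        apply Finset.sum_le_sum
        intro k _
        have h1 : ∑ n ∈ (Finset.Icc 1 N).filter (fun n : ℕ => ⌊|Y - Real.log n|⌋₊ = k),
            (lam n) ^ 2 * Real.exp (-(Y - Real.log n) ^ 2 / 2) ≤
            ∑ n ∈ (Finset.Icc 1 N).filter (fun n : ℕ => |Y - Real.log n| ≤ (k : ℝ) + 1),
              (lam n) ^ 2 * Real.exp (-(k : ℝ) ^ 2 / 2) := by
          calc ∑ n ∈ (Finset.Icc 1 N).filter (fun n : ℕ => ⌊|Y - Real.log n|⌋₊ = k),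
            (lam n) ^ 2 * Real.exp (-(Y - Real.log n) ^ 2 / 2)
              ≤ ∑ n ∈ (Finset.Icc 1 N).filter (fun n : ℕ => ⌊|Y - Real.log n|⌋₊ = k),
                (lam n) ^ 2 * Real.exp (-(k : ℝ) ^ 2 / 2) := by
                apply Finset.sum_le_sum
                intro n hn
                rw [Finset.mem_filter] at hn
                have h2 : (k : ℝ) ≤ |Y - Real.log n| := by
                  rw [← hn.2]
                  exact Nat.floor_le (abs_nonneg _)
                have h3 : (k : ℝ) ^ 2 ≤ (Y - Real.log n) ^ 2 := by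
                  rw [← sq_abs (Y - Real.log n)]
                  exact pow_le_pow_left₀ (Nat.cast_nonneg k) h2 2
                gcongr
            _ ≤ _ := by
                apply Finset.sum_le_sum_of_subset_of_nonneg
                · intro n hn
                  rw [Finset.mem_filter] at hn ⊢
                  refine ⟨hn.1, ?_⟩
                  have := Nat.lt_floor_add_one |Y - Real.log n|
                  rw [hn.2] at this
                  exact this.le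
                · intro n _ _
                  positivity
        refine h1.trans ?_
        rw [← Finset.sum_mul]
        have h2 := mass C1 hC h Y ((k : ℝ) + 1) hY (by positivity) N
        have h3 : (0 : ℝ) ≤ Real.exp (-(k : ℝ) ^ 2 / 2) := (Real.exp_pos _).le
        have h4 := mul_le_mul_of_nonneg_right h2 h3
        refine h4.trans (le_of_eq ?_)
        ring
    _ = (4 + 2 * C1) * (Y + 1) * ∑ k ∈ Finset.range (⌊Y + Real.log N⌋₊ + 1),
          (Real.exp (-(k : ℝ) ^ 2 / 2) * ((k : ℝ) + 2) ^ 2) := by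
        rw [Finset.mul_sum]
    _ ≤ (4 + 2 * C1) * (Y + 1) * ∑' k : ℕ,
          (Real.exp (-(k : ℝ) ^ 2 / 2) * ((k : ℝ) + 2) ^ 2) := by
        have h1 := ksum.sum_le_tsum (Finset.range (⌊Y + Real.log N⌋₊ + 1))
          (fun k _ => by positivity)
        have h2 : 0 ≤ (4 + 2 * C1) * (Y + 1) := by positivity
        exact mul_le_mul_of_nonneg_left h1 h2
    _ = _ := by ring

theorem gmass_tsum (C1 : ℝ) (hC : 0 < C1)
    (h : ∀ N : ℕ, 1 ≤ N →
      |(∑ n ∈ Finset.Icc 1 N, (lam n) ^ 2) - (Real.log N) ^ 2 / 2| ≤ C1 * (Real.log N + 1))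
    (Y : ℝ) (hY : 0 ≤ Y) :
    ∑' n : ℕ, (lam n) ^ 2 * Real.exp (-(Y - Real.log n) ^ 2 / 2) ≤
      (4 + 2 * C1) * (∑' k : ℕ, Real.exp (-(k : ℝ) ^ 2 / 2) * ((k : ℝ) + 2) ^ 2) * (Y + 1) := by
  apply Real.tsum_le_of_sum_range_le
  · intro n
    positivity
  · intro N
    refine le_trans ?_ (gmass C1 hC h Y hY N)
    have h1 : Finset.range N ⊆ insert 0 (Finset.Icc 1 N) := by
      intro n hn
      rw [Finset.mem_range] at hn
      rw [Finset.mem_insert, Finset.mem_Icc]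
      omega
    have h2 : ∑ n ∈ insert 0 (Finset.Icc 1 N), (lam n) ^ 2 *
        Real.exp (-(Y - Real.log n) ^ 2 / 2) =
        ∑ n ∈ Finset.Icc 1 N, (lam n) ^ 2 * Real.exp (-(Y - Real.log n) ^ 2 / 2) := by
      rw [Finset.sum_insert (by simp), lam_zero]
      simp
    rw [← h2]
    exact Finset.sum_le_sum_of_subset_of_nonneg h1 (fun n _ _ => by positivity)

/-! ### Gaussian tails -/

theorem gs_shift_integrable (L : ℝ) : Integrable (fun y => gs (y - L)) :=
  gs_integrable.comp_sub_right L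

theorem gs_shift_integral (L : ℝ) : ∫ y, gs (y - L) = 1 := by
  rw [integral_sub_right_eq_self (fun y => gs y) L, gs_integral]

theorem gs_mul (y L a : ℝ) (h : 0 ≤ (a - y) * (L - a)) :
    gs (y - L) ≤ Real.exp (-(a - L) ^ 2 / 2) * gs (y - a) := by
  unfold gs
  rw [← mul_div_assoc, ← Real.exp_add]
  apply div_le_div_of_nonneg_right _ (Real.sqrt_nonneg _)
  apply Real.exp_le_exp.mpr
  nlinarith

theorem tail_left (L a : ℝ) (h : a ≤ L) :
    ∫ y in Iic a, gs (y - L) ≤ Real.exp (-(a - L) ^ 2 / 2) := by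
  calc ∫ y in Iic a, gs (y - L) ≤ ∫ y in Iic a, Real.exp (-(a - L) ^ 2 / 2) * gs (y - a) := by
        apply setIntegral_mono_on (gs_shift_integrable L).integrableOn
          ((gs_shift_integrable a).integrableOn.const_mul _) measurableSet_Iic
        intro y hy
        exact gs_mul y L a (mul_nonneg (by linarith [mem_Iic.mp hy]) (by linarith))
    _ ≤ ∫ y, Real.exp (-(a - L) ^ 2 / 2) * gs (y - a) := by
        apply setIntegral_le_integral ((gs_shift_integrable a).const_mul _)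
        filter_upwards with y
        exact mul_nonneg (Real.exp_pos _).le (gs_nonneg _)
    _ = Real.exp (-(a - L) ^ 2 / 2) := by
        rw [integral_const_mul, gs_shift_integral, mul_one]

theorem tail_right (L a : ℝ) (h : L ≤ a) :
    ∫ y in Ioi a, gs (y - L) ≤ Real.exp (-(a - L) ^ 2 / 2) := by
  calc ∫ y in Ioi a, gs (y - L) ≤ ∫ y in Ioi a, Real.exp (-(a - L) ^ 2 / 2) * gs (y - a) := by
        apply setIntegral_mono_on (gs_shift_integrable L).integrableOn
          ((gs_shift_integrable a).integrableOn.const_mul _) measurableSet_Ioi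
        intro y hy
        have := mem_Ioi.mp hy
        exact gs_mul y L a (mul_nonneg_of_nonpos_of_nonpos (by linarith) (by linarith))
    _ ≤ ∫ y, Real.exp (-(a - L) ^ 2 / 2) * gs (y - a) := by
        apply setIntegral_le_integral ((gs_shift_integrable a).const_mul _)
        filter_upwards with y
        exact mul_nonneg (Real.exp_pos _).le (gs_nonneg _)
    _ = Real.exp (-(a - L) ^ 2 / 2) := by
        rw [integral_const_mul, gs_shift_integral, mul_one]

/-- the weight of a point -/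
noncomputable def WW (Y L : ℝ) : ℝ := ∫ y in (0 : ℝ)..Y, gs (y - L)

theorem WW_nonneg (Y L : ℝ) (hY : 0 ≤ Y) : 0 ≤ WW Y L := by
  unfold WW
  exact intervalIntegral.integral_nonneg hY (fun y _ => gs_nonneg _)

theorem WW_split (Y L : ℝ) (hY : 0 ≤ Y) :
    (∫ y in Iic (0 : ℝ), gs (y - L)) + WW Y L + ∫ y in Ioi Y, gs (y - L) = 1 := by
  have hint := gs_shift_integrable L
  unfold WW
  rw [intervalIntegral.integral_of_le hY,
    ← setIntegral_union (by
      rw [Set.disjoint_left]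
      intro y hy hy'
      have h1 := mem_Iic.mp hy
      have h2 := hy'.1
      linarith) measurableSet_Ioc hint.integrableOn hint.integrableOn,
    Iic_union_Ioc_eq_Iic hY]
  have h1 : (Iic Y)ᶜ = Ioi Y := compl_Iic
  rw [← h1, integral_add_compl measurableSet_Iic hint, gs_shift_integral]

theorem dterm (Y L : ℝ) (hY : 0 ≤ Y) (hL : 0 ≤ L) :
    |WW Y L - (if L ≤ Y then 1 else 0)| ≤
      Real.exp (-(0 - L) ^ 2 / 2) + Real.exp (-(Y - L) ^ 2 / 2) := by
  have hp1 := Real.exp_pos (-(0 - L) ^ 2 / 2)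
  have hp2 := Real.exp_pos (-(Y - L) ^ 2 / 2)
  split_ifs with h
  · have h1 := WW_split Y L hY
    have h2 := tail_left L 0 hL
    have h3 := tail_right L Y h
    have h4 : 0 ≤ ∫ y in Iic (0 : ℝ), gs (y - L) := integral_nonneg (fun y => gs_nonneg _)
    have h5 : 0 ≤ ∫ y in Ioi Y, gs (y - L) := integral_nonneg (fun y => gs_nonneg _)
    rw [abs_le]
    constructor <;> linarith
  · push Not at h
    have h1 := WW_nonneg Y L hY
    have h2 : WW Y L ≤ ∫ y in Iic Y, gs (y - L) := by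
      unfold WW
      rw [intervalIntegral.integral_of_le hY]
      apply setIntegral_mono_set (gs_shift_integrable L).integrableOn
      · filter_upwards with y
        exact gs_nonneg _
      · exact Ioc_subset_Iic_self.eventuallyLE
    have h3 := tail_left L Y h.le
    rw [sub_zero, abs_of_nonneg h1]
    linarith

theorem hasSum_WW (Y : ℝ) (hY : 0 ≤ Y) :
    HasSum (fun n : ℕ => (lam n) ^ 2 * WW Y (Real.log n)) (∫ y in (0 : ℝ)..Y, KK y) := by
  have h1 := intervalIntegral.hasSum_integral_of_dominated_convergence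
    (μ := volume) (a := (0 : ℝ)) (b := Y)
    (F := fun (n : ℕ) (y : ℝ) => (lam n) ^ 2 * gs (y - Real.log n)) (f := KK)
    (fun (n : ℕ) (_ : ℝ) => 4 * Real.exp (2 + 2 * Y) * (1 / (n : ℝ) ^ 2))
    (fun n => (continuous_const.mul
      (gs_cont.comp (continuous_id.sub continuous_const))).aestronglyMeasurable)
    (fun n => by
      filter_upwards with y hy
      rw [uIoc_of_le hY] at hy
      rw [Real.norm_of_nonneg (mul_nonneg (sq_nonneg _) (gs_nonneg _))]
      refine (term_le y n).trans ?_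
      have := hy.2
      gcongr)
    (by
      filter_upwards with y hy
      exact sum_inv_sq.mul_left _)
    (by
      exact intervalIntegrable_const)
    (by
      filter_upwards with y hy
      exact (summ y).hasSum)
  have h2 : (fun n : ℕ => ∫ y in (0 : ℝ)..Y, (lam n) ^ 2 * gs (y - Real.log n)) =
      fun n : ℕ => (lam n) ^ 2 * WW Y (Real.log n) := by
    ext n
    rw [intervalIntegral.integral_const_mul]
    rfl
  rw [h2] at h1
  exact h1

theorem hasSum_VM (Y : ℝ) :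
    HasSum (fun n : ℕ => (lam n) ^ 2 * (if Real.log n ≤ Y then (1 : ℝ) else 0)) (VM Y) := by
  have h1 : ∀ n ∉ Finset.Icc 1 ⌊Real.exp Y⌋₊,
      (lam n) ^ 2 * (if Real.log n ≤ Y then (1 : ℝ) else 0) = 0 := by
    intro n hn
    rw [mem_iff] at hn
    rcases Nat.eq_zero_or_pos n with rfl | hn0
    · simp [lam_zero]
    · have h2 : ¬ Real.log n ≤ Y := fun h => hn ⟨hn0, h⟩
      rw [if_neg h2, mul_zero]
  have h2 : HasSum (fun n : ℕ => (lam n) ^ 2 * (if Real.log n ≤ Y then (1 : ℝ) else 0))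
      (∑ n ∈ Finset.Icc 1 ⌊Real.exp Y⌋₊,
        (lam n) ^ 2 * (if Real.log n ≤ Y then (1 : ℝ) else 0)) :=
    hasSum_sum_of_ne_finset_zero h1
  have h3 : ∑ n ∈ Finset.Icc 1 ⌊Real.exp Y⌋₊,
      (lam n) ^ 2 * (if Real.log n ≤ Y then (1 : ℝ) else 0) = VM Y := by
    unfold VM
    apply Finset.sum_congr rfl
    intro n hn
    rw [mem_iff] at hn
    rw [if_pos hn.2, mul_one]
  rw [h3] at h2
  exact h2

end Pool.Agent.W991.TCK

/-- cumulative behaviour of the smoothed density -/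
theorem TC.kcum (h : TC.S_LSQ) : TC.S_KCUM := by
  obtain ⟨C1, hC, h⟩ := h
  set K : ℝ := ∑' k : ℕ, Real.exp (-(k : ℝ) ^ 2 / 2) * ((k : ℝ) + 2) ^ 2 with hK
  have hK0 : 0 ≤ K := tsum_nonneg (fun k => by positivity)
  refine ⟨Pool.Agent.W991.TCK.summ, Pool.Agent.W991.TCK.KK_cont,
    (C1 + 1) + 2 * ((4 + 2 * C1) * K), by positivity, fun Y hY => ?_⟩
  have hD := (Pool.Agent.W991.TCK.hasSum_WW Y hY).sub (Pool.Agent.W991.TCK.hasSum_VM Y)
  have hg := (Pool.Agent.W991.TCK.esumm 0).hasSum.add (Pool.Agent.W991.TCK.esumm Y).hasSum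
  have h0 := Pool.Agent.W991.TCK.gmass_tsum C1 hC h 0 le_rfl
  have hY' := Pool.Agent.W991.TCK.gmass_tsum C1 hC h Y hY
  rw [← hK] at h0 hY'
  have h1 := hD.norm_le_of_bounded hg (fun n => by
    rw [← mul_sub, norm_mul, Real.norm_of_nonneg (sq_nonneg _), ← mul_add, Real.norm_eq_abs]
    refine mul_le_mul_of_nonneg_left ?_ (sq_nonneg _)
    refine Pool.Agent.W991.TCK.dterm Y (Real.log n) hY ?_
    exact Real.log_natCast_nonneg n)
  have h2 := Pool.Agent.W991.TCK.VM_bound C1 hC h Y hY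
  rw [Real.norm_eq_abs] at h1
  have h3 : 0 ≤ (4 + 2 * C1) * K := by positivity
  rw [abs_le] at h1 h2 ⊢
  constructor <;> nlinarith [h1.1, h1.2, h2.1, h2.2]
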